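import Pool.Agent.Lib.GEL.MainK

/-!
# MP_fd1cdf_an: natural uniform algebras on the interval, one local function

A natural uniform algebra on `[0,1]` is `C([0,1])` as soon as every subinterval contains a smaller
one on which some function of the algebra is non-constant and either has an image which is not the
closure of its interior, or takes a non-meagre set of values having an isolated point in their
fibre.
-/

set_option autoImplicit false

open Set

namespace Pool.Agent.Results.MP_fd1cdf_an.IsolatedFibres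

theorem result (A : Subalgebra ℂ C(unitInterval, ℂ))
    (hcl : IsClosed (A : Set C(unitInterval, ℂ)))
    (hsep : ∀ x y : unitInterval, x ≠ y → ∃ f ∈ A, (f : C(unitInterval, ℂ)) x ≠ f y)
    (hnat : ∀ φ : A →ₐ[ℂ] ℂ, ∃ x : unitInterval, ∀ f : A, φ f = (f : C(unitInterval, ℂ)) x)
    (h : ∀ a b : unitInterval, a < b → ∃ c d : unitInterval, a ≤ c ∧ c < d ∧ d ≤ b ∧
      ∃ f ∈ A, (∃ x ∈ Icc c d, (f : C(unitInterval, ℂ)) x ≠ f c) ∧
        (closure (interior (f '' Icc c d)) ≠ f '' Icc c d ∨
          ¬ IsMeagre {z : ℂ | ∃ t ∈ Icc c d, f t = z ∧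
            ∃ ε > 0, ∀ r ∈ Icc c d, dist r t < ε → f r = z → r = t})) :
    A = ⊤ :=
  Pool.Agent.Lib.GEL.main_K ⟨hcl, hnat⟩ hsep h

end Pool.Agent.Results.MP_fd1cdf_an.IsolatedFibres
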