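import Pool.Agent.Lib.GEL.MainF

/-!
# MP_fd1cdf_an: natural uniform algebras on the interval, the local overlap theorem
-/

set_option autoImplicit false

open Set

namespace Pool.Agent.Results.MP_fd1cdf_an.LocalOverlap

/-- For some `q < s < p` with `f q, f p ≠ f s`, no connected open subset of the overlap
`f([q,s]) ∩ f([s,p])` has `f s` in its closure. -/
def NoOverlapAt (f : C(unitInterval, ℂ)) (s : unitInterval) : Prop :=
  ∃ q p : unitInterval, q < s ∧ s < p ∧ f q ≠ f s ∧ f p ≠ f s ∧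
    ∀ W : Set ℂ, IsOpen W → IsConnected W → W ⊆ f '' Icc q s ∩ f '' Icc s p → f s ∉ closure W

theorem result (A : Subalgebra ℂ C(unitInterval, ℂ))
    (hcl : IsClosed (A : Set C(unitInterval, ℂ)))
    (hsep : ∀ x y : unitInterval, x ≠ y → ∃ f ∈ A, (f : C(unitInterval, ℂ)) x ≠ f y)
    (hnat : ∀ φ : A →ₐ[ℂ] ℂ, ∃ x : unitInterval, ∀ f : A, φ f = (f : C(unitInterval, ℂ)) x)
    (h : ∀ a b : unitInterval, a < b → ∃ c d : unitInterval, a ≤ c ∧ c < d ∧ d ≤ b ∧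
      ∃ f ∈ A, (∃ x ∈ Icc c d, (f : C(unitInterval, ℂ)) x ≠ f c) ∧
        ∀ c' d' : unitInterval, c ≤ c' → c' < d' → d' ≤ d → (∃ x ∈ Icc c' d', f x ≠ f c') →
          ∃ s ∈ Icc c' d', NoOverlapAt f s) :
    A = ⊤ :=
  Pool.Agent.Lib.GEL.main_F ⟨hcl, hnat⟩ hsep h

end Pool.Agent.Results.MP_fd1cdf_an.LocalOverlap
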