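import Pool.Agent.Lib.ARC.Arc
import Pool.Agent.Lib.ARC.FinGel

set_option autoImplicit false

open Topology

namespace Pool.Agent.Results.MP_fd1cdf_an.ThreeGenerators

/-- There are three continuous functions on `[0,1]` such that the closed subalgebra `A` of
`C([0,1])` generated by them and the constants is a natural uniform algebra on `[0,1]` with
`|f 1 - f 0| ≤ (1/2) sup |f|` for all `f ∈ A`; in particular `A ≠ C([0,1])`. -/
theorem result : ∃ g : Fin 3 → C(unitInterval, ℂ), ∃ A : Subalgebra ℂ C(unitInterval, ℂ),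
    A = (Algebra.adjoin ℂ (Set.range g)).topologicalClosure ∧
    IsClosed (A : Set C(unitInterval, ℂ)) ∧
    (∀ x y : unitInterval, x ≠ y → ∃ f ∈ A, f x ≠ f y) ∧
    (∀ φ : A →ₐ[ℂ] ℂ, ∃ x : unitInterval, ∀ f : A, φ f = (f : C(unitInterval, ℂ)) x) ∧
    (∀ f ∈ A, ‖f 1 - f 0‖ ≤ ‖f‖ / 2) ∧
    A ≠ ⊤ := by
  obtain ⟨γ, hc, hinj, hpc, hd⟩ := Pool.Agent.Lib.ARC.exists_arc
  have hnat : Pool.Agent.Lib.GEL.Natural (Pool.Agent.Lib.GEL.PE γ hc) :=
    Pool.Agent.Lib.GEL.PE_natural hc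
      (fun z hz => hpc z fun P M hPM => hz P M fun t => hPM _ ⟨t, rfl⟩)
  have hend : ∀ f ∈ Pool.Agent.Lib.GEL.PE γ hc, ‖f 1 - f 0‖ ≤ ‖f‖ / 2 := by
    intro f hf
    refine le_of_forall_pos_le_add fun ε hε => ?_
    obtain ⟨P, hP⟩ := (Pool.Agent.Lib.GEL.PE_mem_iff hc).mp hf (ε / 4) (by positivity)
    have hM : ∀ t, ‖MvPolynomial.eval (γ t) P‖ ≤ ‖f‖ + ε / 4 := by
      intro t
      have h1 := f.norm_coe_le_norm t
      have h2 := (hP t).le
      have h3 : MvPolynomial.eval (γ t) P = f t - (f t - MvPolynomial.eval (γ t) P) := by ring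
      rw [h3]
      exact (norm_sub_le _ _).trans (add_le_add h1 h2)
    have h := hd P _ hM
    have h1 := (hP 1).le
    have h0 := (hP 0).le
    have e : f 1 - f 0 = (f 1 - MvPolynomial.eval (γ 1) P) - (f 0 - MvPolynomial.eval (γ 0) P)
        + (MvPolynomial.eval (γ 1) P - MvPolynomial.eval (γ 0) P) := by ring
    rw [e]
    refine (norm_add_le _ _).trans ?_
    have := norm_sub_le (f 1 - MvPolynomial.eval (γ 1) P) (f 0 - MvPolynomial.eval (γ 0) P)
    linarith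
  refine ⟨Pool.Agent.Lib.GEL.coordC γ hc, Pool.Agent.Lib.GEL.PE γ hc, ?_, hnat.1,
    Pool.Agent.Lib.GEL.PE_sep hc hinj, hnat.2, hend, ?_⟩
  · rw [Algebra.adjoin_range_eq_range_aeval]
    rfl
  · intro htop
    have hg := hend ⟨fun t => ((2 * (t : ℝ) - 1 : ℝ) : ℂ), by fun_prop⟩
      (by rw [htop]; exact Algebra.mem_top)
    have hn : ‖(⟨fun t => ((2 * (t : ℝ) - 1 : ℝ) : ℂ), by fun_prop⟩ : C(unitInterval, ℂ))‖ ≤ 1 := by
      rw [ContinuousMap.norm_le _ zero_le_one]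
      intro t
      show ‖((2 * (t : ℝ) - 1 : ℝ) : ℂ)‖ ≤ 1
      rw [Complex.norm_real, Real.norm_eq_abs, abs_le]
      have h0 := t.2.1
      have h1 := t.2.2
      constructor <;> linarith
    have hv : ‖(⟨fun t => ((2 * (t : ℝ) - 1 : ℝ) : ℂ), by fun_prop⟩ : C(unitInterval, ℂ)) 1
        - (⟨fun t => ((2 * (t : ℝ) - 1 : ℝ) : ℂ), by fun_prop⟩ : C(unitInterval, ℂ)) 0‖ = 2 := by
      show ‖((2 * ((1 : unitInterval) : ℝ) - 1 : ℝ) : ℂ)
        - ((2 * ((0 : unitInterval) : ℝ) - 1 : ℝ) : ℂ)‖ = 2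
      norm_num
    rw [hv] at hg
    linarith

end Pool.Agent.Results.MP_fd1cdf_an.ThreeGenerators
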